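import Mathlib
import Pool.Agent.H66.Fiber2

set_option autoImplicit false

namespace Pool.Agent.Results.MP_c47b4a_al.Presented
open Pool.Agent.H66.Fiber

universe u

/-- Every finitely generated fiber product of two free semigroups is finitely presented. -/
theorem result (A B : Type) [Finite A] [Finite B] [Nonempty A] [Nonempty B] (Q : Type u)
    [Semigroup Q] [Infinite Q] (f : FreeSemigroup A →ₙ* Q) (g : FreeSemigroup B →ₙ* Q)
    (hf : Function.Surjective f) (hg : Function.Surjective g) (h : FG (fiber f g)) :
    FP (fiber f g) :=
  main f g hf hg h

end Pool.Agent.Results.MP_c47b4a_al.Presented
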